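import Pool.Agent.helper62.W3.SpecA

/-!
# Project EC, row EXW: interchange of summation, Chinese remainder theorem (adapted from EXC of project CH)
-/

set_option autoImplicit false

namespace Pool.Agent.EC

open Finset ArithmeticFunction
open Pool.Agent.CH (Win rgh dl eU Mo ClP ClB)

private lemma EXW_r1 : ∃ r : ℕ → ℕ, ClP r := by
  classical
  refine ⟨fun m => if h : Nat.Coprime 30 m then (Nat.chineseRemainder h 1 (6 * m - 6) : ℕ) else 0, ?_⟩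
  intro m hm hc
  have h : Nat.Coprime 30 m := hc.symm
  simp only [dif_pos h]
  have h2 := (Nat.chineseRemainder h 1 (6 * m - 6)).2
  refine ⟨h2.1, ?_⟩
  have h3 : (Nat.chineseRemainder h 1 (6 * m - 6) : ℕ) + 6 ≡ 6 * m - 6 + 6 [MOD m] := h2.2.add_right 6
  have h4 : 6 * m - 6 + 6 = m * 6 := by omega
  rw [h4] at h3
  exact (Nat.modEq_zero_iff_dvd.1 (h3.trans (Nat.modEq_zero_iff_dvd.2 (dvd_mul_right m 6))))

private lemma EXW_r2 : ∃ r : ℕ → ℕ, ClB r := by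
  classical
  refine ⟨fun m => if h : Nat.Coprime 30 m then (Nat.chineseRemainder h 7 6 : ℕ) else 0, ?_⟩
  intro m hm hc
  have h : Nat.Coprime 30 m := hc.symm
  simp only [dif_pos h]
  exact (Nat.chineseRemainder h 7 6).2

private lemma EXW_c1 (r : ℕ → ℕ) (hr : ClP r) (m j : ℕ) (hm : 0 < m) (hc : Nat.Coprime m 30) :
    (j % 30 = 1 ∧ m ∣ j + 6) ↔ j ≡ r m [MOD 30 * m] := by
  obtain ⟨h1, h2⟩ := hr m hm hc
  rw [← Nat.modEq_and_modEq_iff_modEq_mul hc.symm]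
  constructor
  · rintro ⟨h3, h4⟩
    refine ⟨?_, ?_⟩
    · exact (show j ≡ 1 [MOD 30] from h3).trans h1.symm
    · exact Nat.ModEq.add_right_cancel' 6
        ((Nat.modEq_zero_iff_dvd.2 h4).trans (Nat.modEq_zero_iff_dvd.2 h2).symm)
  · rintro ⟨h3, h4⟩
    refine ⟨h3.trans h1, ?_⟩
    exact Nat.modEq_zero_iff_dvd.1 ((h4.add_right 6).trans (Nat.modEq_zero_iff_dvd.2 h2))

private lemma EXW_c2 (r : ℕ → ℕ) (hr : ClB r) (m b : ℕ) (hm : 0 < m) (hc : Nat.Coprime m 30) (hb : 7 ≤ b) :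
    (b % 30 = 7 ∧ m ∣ b - 6) ↔ b ≡ r m [MOD 30 * m] := by
  obtain ⟨h1, h2⟩ := hr m hm hc
  rw [← Nat.modEq_and_modEq_iff_modEq_mul hc.symm]
  constructor
  · rintro ⟨h3, h4⟩
    refine ⟨?_, ?_⟩
    · exact (show b ≡ 7 [MOD 30] from h3).trans h1.symm
    · exact ((Nat.modEq_iff_dvd' (by omega)).2 h4).symm.trans h2.symm
  · rintro ⟨h3, h4⟩
    refine ⟨h3.trans h1, ?_⟩
    exact (Nat.modEq_iff_dvd' (by omega)).1 (h4.trans h2).symm

private lemma EXW_mem (l : ℕ → ℝ) (Q : ℝ) (hl : ∀ m, l m ≠ 0 → Nat.Coprime m 30 ∧ (m : ℝ) ≤ Q) (a : ℕ)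
    (ha : 0 < a) : wt l a = ∑ m ∈ Mo Q, if m ∣ a then l m else 0 := by
  unfold wt
  rw [← sum_filter]
  symm
  apply sum_subset
  · intro m hm
    rw [mem_filter] at hm
    exact Nat.mem_divisors.2 ⟨hm.2, by omega⟩
  · intro m hm hm'
    by_contra h0
    obtain ⟨h1, h2⟩ := hl m h0
    rw [Nat.mem_divisors] at hm
    apply hm'
    rw [mem_filter, Mo, mem_filter, mem_Icc]
    refine ⟨⟨⟨Nat.pos_of_dvd_of_pos hm.1 ha, Nat.le_floor h2⟩, h1⟩, hm.1⟩

private lemma EXW_sum (w l : ℕ → ℝ) (Q : ℝ) (r : ℕ → ℕ) (S : Finset ℕ) (P : ℕ → Prop) [DecidablePred P]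
    (D : ℕ → ℕ → Prop) [∀ m, DecidablePred (D m)] (W : ℕ → ℝ)
    (hW : ∀ j ∈ S, P j → W j = ∑ m ∈ Mo Q, if D m j then l m else 0)
    (hD : ∀ m ∈ Mo Q, ∀ j ∈ S, (P j ∧ D m j) ↔ j ≡ r m [MOD 30 * m]) :
    ∑ j ∈ S with P j, w j * W j = ∑ m ∈ Mo Q, l m * ∑ j ∈ S with j ≡ r m [MOD 30 * m], w j := by
  have h1 : ∀ j ∈ S.filter P, w j * W j = ∑ m ∈ Mo Q, if D m j then l m * w j else 0 := by
    intro j hj
    rw [mem_filter] at hj
    rw [hW j hj.1 hj.2, mul_sum]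
    refine sum_congr rfl fun m _ => ?_
    split_ifs
    · ring
    · ring
  rw [sum_congr rfl h1, sum_comm]
  refine sum_congr rfl fun m hm => ?_
  rw [← sum_filter, filter_filter, mul_sum]
  refine sum_congr ?_ fun _ _ => rfl
  ext j
  simp only [mem_filter]
  constructor
  · rintro ⟨h2, h3⟩
    exact ⟨h2, (hD m hm j h2).1 h3⟩
  · rintro ⟨h2, h3⟩
    exact ⟨h2, (hD m hm j h2).2 h3⟩

theorem EXW : EXW_stmt := by
  refine ⟨EXW_r1, EXW_r2, ?_⟩
  intro w l Q r S hl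
  refine ⟨fun hr => ?_, fun hr hS => ?_⟩
  · refine EXW_sum w l Q r S (fun j => j % 30 = 1) (fun m j => m ∣ j + 6) (fun j => wt l (j + 6)) ?_ ?_
    · intro j _ _
      exact EXW_mem l Q hl (j + 6) (by omega)
    · intro m hm j _
      rw [Mo, mem_filter, mem_Icc] at hm
      exact EXW_c1 r hr m j (by omega) hm.2
  · refine EXW_sum w l Q r S (fun b => b % 30 = 7) (fun m b => m ∣ b - 6) (fun b => wt l (b - 6)) ?_ ?_
    · intro b hb _
      have := hS b hb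
      exact EXW_mem l Q hl (b - 6) (by omega)
    · intro m hm b hb
      rw [Mo, mem_filter, mem_Icc] at hm
      exact EXW_c2 r hr m b (by omega) hm.2 (hS b hb)

end Pool.Agent.EC
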